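import Pool.Agent.Run7.h343.PV.Iface2

/-!
# Piece FM2 of project PV: the dual part of the first moment
-/

set_option autoImplicit false

namespace Pool.Agent.Run7.h220.PV

open Pool.Agent.Run7.h343.PV
open Finset Complex

/-- orthogonality of the characters mod `d` -/
theorem orth2 {d : ℕ} [NeZero d] (x : ZMod d) {y : ZMod d} (hy : IsUnit y) :
    ∑ θ : DirichletCharacter ℂ d, θ x * (starRingEnd ℂ) (θ y) =
      if y = x then ((Nat.totient d : ℕ) : ℂ) else 0 := by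
  have h1 := DirichletCharacter.sum_char_inv_mul_char_eq ℂ hy x
  rw [← h1]
  refine sum_congr rfl fun θ _ => ?_
  have e2 : (starRingEnd ℂ) (θ y) = θ (y⁻¹) := by
    have h3 := MulChar.star_apply' θ y
    rw [starRingEnd_apply, h3, MulChar.inv_apply]
    obtain ⟨u, hu⟩ := hy
    rw [← hu, Ring.inverse_unit, ZMod.inv_coe_unit]
  rw [e2, mul_comm]

theorem tw_nat {p ν m : ℕ} (hmν : m ≤ ν) (χ : DirichletCharacter ℂ (p ^ ν))
    (θ : DirichletCharacter ℂ (p ^ m)) (n : ℕ) :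
    tw hmν χ θ (n : ZMod (p ^ ν)) = χ (n : ZMod (p ^ ν)) * θ (n : ZMod (p ^ m)) := by
  have h := tw_apply hmν χ θ (n : ℤ)
  simpa using h

theorem tw_neg {p ν m : ℕ} (hmν : m ≤ ν) (χ : DirichletCharacter ℂ (p ^ ν))
    (θ : DirichletCharacter ℂ (p ^ m)) :
    tw hmν χ θ (-1) = χ (-1) * θ (-1) := by
  have h := tw_apply hmν χ θ (-1)
  simpa using h

/-- the first moment with the twist `θ u` -/
theorem dual_sum {p ν m N : ℕ} (hmν : m ≤ ν) [NeZero (p ^ m)] (χ : DirichletCharacter ℂ (p ^ ν))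
    (Y : ℝ) (u : ℤ) (w : ℝ → ℝ) :
    ∑ θ : DirichletCharacter ℂ (p ^ m), θ (u : ZMod (p ^ m)) *
      (Mol Y (tw hmν χ θ) * (starRingEnd ℂ) (AA N w (tw hmν χ θ))) =
    ((Nat.totient (p ^ m) : ℕ) : ℂ) * ∑ l ∈ Icc 1 ⌊Y⌋₊,
      ∑ n ∈ (Icc 1 N).filter (fun n : ℕ => ((p ^ m : ℕ) : ℤ) ∣ (n : ℤ) - u * l),
        (starRingEnd ℂ) (χ (n : ZMod (p ^ ν))) * χ (l : ZMod (p ^ ν)) *
          ((mu l * PL Y l * w (Real.log n) / Real.sqrt ((n : ℝ) * l) : ℝ) : ℂ) := by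
  have h1 : ∀ θ : DirichletCharacter ℂ (p ^ m), θ (u : ZMod (p ^ m)) *
      (Mol Y (tw hmν χ θ) * (starRingEnd ℂ) (AA N w (tw hmν χ θ))) =
      ∑ l ∈ Icc 1 ⌊Y⌋₊, ∑ n ∈ Icc 1 N,
        ((starRingEnd ℂ) (χ (n : ZMod (p ^ ν))) * χ (l : ZMod (p ^ ν)) *
          ((mu l * PL Y l * w (Real.log n) / Real.sqrt ((n : ℝ) * l) : ℝ) : ℂ)) *
        (θ ((u * l : ℤ) : ZMod (p ^ m)) * (starRingEnd ℂ) (θ (n : ZMod (p ^ m)))) := by
    intro θ
    unfold Mol AA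
    rw [map_sum, sum_mul_sum, mul_sum]
    refine sum_congr rfl fun l _ => ?_
    rw [mul_sum]
    refine sum_congr rfl fun n _ => ?_
    rw [tw_nat, tw_nat, map_mul, map_mul, Complex.conj_ofReal, Int.cast_mul, map_mul,
      Int.cast_natCast, Real.sqrt_mul (Nat.cast_nonneg n)]
    push_cast
    rw [div_eq_mul_inv, div_eq_mul_inv, div_eq_mul_inv, mul_inv]
    ring
  rw [sum_congr rfl fun θ _ => h1 θ, sum_comm, mul_sum]
  refine sum_congr rfl fun l _ => ?_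
  rw [sum_comm, sum_filter, mul_sum]
  refine sum_congr rfl fun n _ => ?_
  rw [← mul_sum]
  by_cases hn : IsUnit (n : ZMod (p ^ m))
  · rw [orth2 _ hn]
    by_cases hd : ((p ^ m : ℕ) : ℤ) ∣ (n : ℤ) - u * l
    · rw [if_pos hd, if_pos, mul_comm]
      have h2 := (ZMod.intCast_eq_intCast_iff_dvd_sub (u * l) (n : ℤ) (p ^ m)).2 hd
      rw [h2]
      simp
    · rw [if_neg hd, if_neg, mul_zero, mul_zero]
      intro h2
      apply hd
      rw [← ZMod.intCast_eq_intCast_iff_dvd_sub (u * l) (n : ℤ) (p ^ m), ← h2]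
      simp
  · have h2 : χ (n : ZMod (p ^ ν)) = 0 := by
      apply MulChar.map_nonunit
      intro h3
      apply hn
      have h4 := h3.map (ZMod.castHom (pow_dvd_pow p hmν) (ZMod (p ^ m)))
      simpa using h4
    rw [h2, map_zero, zero_mul, zero_mul, zero_mul]
    simp

theorem t_FM2 (h : S_DUAL) : S_FM2 := by
  obtain ⟨C, hC, hD⟩ := h
  refine ⟨2 * C, by positivity, ?_⟩
  intro p ν m N hmν _ χ Y U b w hp hm hN hb hY hU hw hwl
  have hb' : ¬ (p : ℤ) ∣ -b := by rwa [dvd_neg]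
  have e1 := hD p ν m N Y U b w χ hp hm hmν hN hb hY hU hw hwl
  have e2 := hD p ν m N Y U (-b) w χ hp hm hmν hN hb' hY hU hw hwl
  have s1 := dual_sum (N := N) hmν χ Y b w
  have s2 := dual_sum (N := N) hmν χ Y (-b) w
  have hsum : ∑ θ : DirichletCharacter ℂ (p ^ m), (1 + tw hmν χ θ (-1)) * (θ (b : ZMod (p ^ m)) *
      (Mol Y (tw hmν χ θ) * (starRingEnd ℂ) (AA N w (tw hmν χ θ)))) =
      ∑ θ : DirichletCharacter ℂ (p ^ m), θ (b : ZMod (p ^ m)) *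
        (Mol Y (tw hmν χ θ) * (starRingEnd ℂ) (AA N w (tw hmν χ θ))) +
      χ (-1) * ∑ θ : DirichletCharacter ℂ (p ^ m), θ ((-b : ℤ) : ZMod (p ^ m)) *
        (Mol Y (tw hmν χ θ) * (starRingEnd ℂ) (AA N w (tw hmν χ θ))) := by
    rw [mul_sum, ← sum_add_distrib]
    refine sum_congr rfl fun θ _ => ?_
    have e3 : θ ((-b : ℤ) : ZMod (p ^ m)) = θ (-1) * θ (b : ZMod (p ^ m)) := by
      rw [← map_mul]
      congr 1
      push_cast
      ring
    rw [tw_neg, e3]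
    ring
  rw [hsum, s1, s2]
  set D : ℝ := C * (1 / Real.log Y + 1 / U) +
      C * Y ^ 2 * (1 / Real.sqrt ((p : ℝ) ^ m) + Real.sqrt N / (p : ℝ) ^ m) with hDdef
  have hχ : ‖χ (-1)‖ ≤ 1 := DirichletCharacter.norm_le_one χ (-1)
  have hφ : (0 : ℝ) ≤ (Nat.totient (p ^ m) : ℕ) := Nat.cast_nonneg _
  have hD0 : 0 ≤ D := (norm_nonneg _).trans e1
  calc ‖_ + _‖ ≤ ‖_‖ + ‖_‖ := norm_add_le _ _
    _ ≤ (Nat.totient (p ^ m) : ℕ) * D + 1 * ((Nat.totient (p ^ m) : ℕ) * D) := by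
        rw [norm_mul, norm_mul (χ (-1)), norm_mul, Complex.norm_natCast]
        gcongr
    _ = (Nat.totient (p ^ m) : ℕ) * (2 * C * (1 / Real.log Y + 1 / U) +
        2 * C * Y ^ 2 * (1 / Real.sqrt ((p : ℝ) ^ m) + Real.sqrt N / (p : ℝ) ^ m)) := by
        rw [hDdef]
        ring

end Pool.Agent.Run7.h220.PV
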