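import Pool.Agent.Run7.h343.PV.Iface2

/-!
# Piece WT of project PV: the tail of the series
-/

set_option autoImplicit false

namespace Pool.Agent.Run7.h220.PV

open Pool.Agent.Run7.h343.PV
open Finset Complex

theorem t_WT : S_WT := by
  intro J hJ
  have hB0 : Summable (fun n : ℕ => 1 / (n : ℝ) ^ 2) :=
    Real.summable_one_div_nat_pow.2 (by norm_num)
  set Z : ℝ := ∑' n : ℕ, 1 / (n : ℝ) ^ 2 with hZdef
  have hZpos : 0 ≤ Z := tsum_nonneg (fun n => by positivity)
  set k : ℕ := 20 * J + 4 with hk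
  refine ⟨2 * (k.factorial : ℝ) * Z + 1, by positivity, ?_⟩
  intro p ν w a hp hU hw hwe ha
  set U : ℝ := UU J p ν with hUdef
  set q : ℝ := (p : ℝ) ^ ν with hq
  have hp0 : (0 : ℝ) < p := by exact_mod_cast hp.pos
  have hq0 : 0 < q := by positivity
  have hJ0 : (0 : ℝ) < J := by exact_mod_cast hJ
  have hqU : q = Real.exp (20 * J * U) := by
    have h1 : 20 * (J : ℝ) * U = Real.log q := by
      rw [hUdef, UU, ← hq]
      field_simp
    rw [h1, Real.exp_log hq0]
  set N : ℕ := NN J p ν with hN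
  -- the bound for one term
  have key : ∀ n : ℕ, N < n → w (Real.log n) ≤ 2 * (k.factorial : ℝ) / q * (1 / (n : ℝ) ^ 2) := by
    intro n hn
    have hn1 : Real.exp ((10 * J + 2) * U) ≤ (n : ℝ) := by
      calc Real.exp ((10 * J + 2) * U) ≤ (N : ℝ) := Nat.le_ceil _
        _ ≤ n := by exact_mod_cast hn.le
    have hn0 : (0 : ℝ) < n := lt_of_lt_of_le (Real.exp_pos _) hn1
    set y : ℝ := Real.exp (2 * Real.log n - U) / q with hy
    have hyeq : y = (n : ℝ) ^ 2 * Real.exp (-((20 * J + 1) * U)) := by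
      rw [hy, hqU, ← Real.exp_sub,
        show 2 * Real.log n - U - 20 * J * U = Real.log n + Real.log n + (-((20 * J + 1) * U)) by
          ring, Real.exp_add, Real.exp_add, Real.exp_log hn0]
      ring
    have hypos : 0 < y := by rw [hyeq]; positivity
    have h1 : y ^ k / (k.factorial : ℝ) ≤ Real.exp y :=
      Real.pow_div_factorial_le_exp y hypos.le k
    have hy3 : Real.exp (3 * U) ≤ y := by
      rw [hyeq]
      calc Real.exp (3 * U) = Real.exp ((10 * J + 2) * U) ^ 2 * Real.exp (-((20 * J + 1) * U)) := by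
            rw [pow_two, ← Real.exp_add, ← Real.exp_add]
            congr 1
            ring
        _ ≤ (n : ℝ) ^ 2 * Real.exp (-((20 * J + 1) * U)) := by
            gcongr
    have h3 : (n : ℝ) ^ 2 * q ≤ y ^ k := by
      have h4 : y ^ k = y ^ (20 * J + 3) * y := by
        rw [hk, show 20 * J + 4 = (20 * J + 3) + 1 by ring, pow_succ]
      rw [h4]
      calc (n : ℝ) ^ 2 * q ≤ Real.exp ((60 * J + 9) * U) * (n : ℝ) ^ 2 *
            Real.exp (-((20 * J + 1) * U)) := by
            rw [mul_comm (Real.exp _) ((n : ℝ) ^ 2), mul_assoc, ← Real.exp_add]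
            gcongr
            rw [hqU]
            apply Real.exp_le_exp.2
            nlinarith
        _ = Real.exp (3 * U) ^ (20 * J + 3) * ((n : ℝ) ^ 2 * Real.exp (-((20 * J + 1) * U))) := by
            rw [← Real.exp_nat_mul, mul_assoc]
            congr 2
            push_cast
            ring
        _ ≤ y ^ (20 * J + 3) * y := by
            rw [← hyeq]
            gcongr
    have h5 : w (Real.log n) ≤ 2 * Real.exp (-y) := hwe (Real.log n)
    have h6 : Real.exp (-y) ≤ (k.factorial : ℝ) / ((n : ℝ) ^ 2 * q) := by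
      rw [Real.exp_neg, inv_eq_one_div, div_le_div_iff₀ (Real.exp_pos _) (by positivity), one_mul]
      have h7 : y ^ k ≤ (k.factorial : ℝ) * Real.exp y := by
        rwa [div_le_iff₀ (by positivity), mul_comm] at h1
      exact h3.trans h7
    calc w (Real.log n) ≤ 2 * Real.exp (-y) := h5
      _ ≤ 2 * ((k.factorial : ℝ) / ((n : ℝ) ^ 2 * q)) := by gcongr
      _ = 2 * (k.factorial : ℝ) / q * (1 / (n : ℝ) ^ 2) := by
        field_simp
  set f : ℕ → ℂ := fun n => a n * ((w (Real.log n) / Real.sqrt n : ℝ) : ℂ) with hf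
  set B : ℕ → ℝ := fun n => 2 * (k.factorial : ℝ) / q * (1 / (n : ℝ) ^ 2) with hB
  have hBs : Summable B := hB0.mul_left _
  have hBn : ∀ n, 0 ≤ B n := fun n => by simp only [hB]; positivity
  have hfB : ∀ n : ℕ, ‖f (n + (N + 1))‖ ≤ B (n + (N + 1)) := by
    intro n
    have h1 := key (n + (N + 1)) (by omega)
    have hm1 : (1 : ℝ) ≤ ((n + (N + 1) : ℕ) : ℝ) := by
      exact_mod_cast (show 1 ≤ n + (N + 1) by omega)
    have hs : (1 : ℝ) ≤ Real.sqrt ((n + (N + 1) : ℕ) : ℝ) := Real.one_le_sqrt.2 hm1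
    have hw0 := (hw (Real.log ((n + (N + 1) : ℕ) : ℝ))).1
    simp only [hf, norm_mul, Complex.norm_real, Real.norm_eq_abs]
    rw [abs_of_nonneg (div_nonneg hw0 (Real.sqrt_nonneg _))]
    calc ‖a (n + (N + 1))‖ * (w (Real.log ((n + (N + 1) : ℕ) : ℝ)) /
          Real.sqrt ((n + (N + 1) : ℕ) : ℝ))
        ≤ 1 * (w (Real.log ((n + (N + 1) : ℕ) : ℝ)) / Real.sqrt ((n + (N + 1) : ℕ) : ℝ)) := by
          gcongr
          exact ha _
      _ ≤ w (Real.log ((n + (N + 1) : ℕ) : ℝ)) := by
          rw [one_mul]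
          exact div_le_self hw0 hs
      _ ≤ _ := h1
  have hBs' : Summable (fun n => B (n + (N + 1))) := (summable_nat_add_iff (N + 1)).2 hBs
  have hfs : Summable f :=
    (summable_nat_add_iff (N + 1)).1 (Summable.of_norm_bounded hBs' hfB)
  have hsplit := hfs.sum_add_tsum_nat_add (N + 1)
  have hIcc : ∑ n ∈ Icc 1 N, ((w (Real.log n) / Real.sqrt n : ℝ) : ℂ) * a n =
      ∑ i ∈ range (N + 1), f i := by
    have h1 : range (N + 1) = insert 0 (Icc 1 N) := by
      ext x
      simp only [mem_range, mem_insert, mem_Icc]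
      omega
    rw [h1, sum_insert (by simp)]
    have h2 : f 0 = 0 := by simp [hf]
    rw [h2, zero_add]
    exact sum_congr rfl fun n _ => mul_comm _ _
  rw [hIcc, ← hsplit, add_sub_cancel_left]
  calc ‖∑' i, f (i + (N + 1))‖ ≤ ∑' i, B (i + (N + 1)) := tsum_of_norm_bounded hBs'.hasSum hfB
    _ ≤ ∑' i, B i := by
        have h1 := hBs.sum_add_tsum_nat_add (N + 1)
        have h2 : 0 ≤ ∑ i ∈ range (N + 1), B i := sum_nonneg fun i _ => hBn i
        linarith
    _ = 2 * (k.factorial : ℝ) / q * Z := by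
        rw [hZdef, ← tsum_mul_left]
    _ ≤ (2 * (k.factorial : ℝ) * Z + 1) / q := by
        rw [div_mul_eq_mul_div]
        gcongr
        linarith

end Pool.Agent.Run7.h220.PV
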